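import Mathlib
import Pool.Agent.Run7.h117.Final

/-!
# An isolated steady state of the 2D Euler equations

The domain is the torus `M = (ℝ / 2πℤ)²` with a smooth Riemannian metric `G` (not flat).  Functions
on `M` are functions `ℝ → ℝ → ℝ` that are `2π`-periodic in both variables (`Per`), `CD k` means of
class `C^k`, and `dx`, `dy` are the partial derivatives.  `G.IsSteadyVorticity ω` says that `ω` is
the vorticity of a velocity field `u` of class `C¹` with `div u = 0` and `∇_u u + ∇p = 0` for some
pressure `p` of class `C¹`, all operators being those of the Riemannian metric (see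
`Pool.Agent.Run7.h117.Euler`).

The theorem: there are a metric `G`, a smooth non-constant steady vorticity `ω` and `δ > 0` such
that every steady vorticity `ω'` of class `C¹` which is `δ`-close to `ω` in the `C¹` sense is
`c ω` for some real `c ≠ 0`.  In particular `ω'` lies in the symmetry class `S(ω)`, so `ω` is
isolated in `C¹(M)` from the steady vorticities outside `S(ω)`.
-/

open Run7.h117

theorem Pool.Agent.Results.MP_0d657e_an.IsolatedTorus.result :
    ∃ (G : Metric) (ω : ℝ → ℝ → ℝ), G.IsSteadyVorticity ω ∧ CD (⊤ : ℕ∞) ω ∧ Per ω ∧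
      (∃ x y, ω x y ≠ ω 0 0) ∧ ∃ δ > 0, ∀ ω' : ℝ → ℝ → ℝ, G.IsSteadyVorticity ω' → CD 1 ω' →
        (∀ x y, |ω' x y - ω x y| ≤ δ ∧ |dx ω' x y - dx ω x y| ≤ δ ∧
          |dy ω' x y - dy ω x y| ≤ δ) →
        ∃ c : ℝ, c ≠ 0 ∧ ∀ x y, ω' x y = c * ω x y :=
  Run7.h117.final
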